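import Pool.Agent.N999.EK.Num

/-!
Project EK (helper561), EK/2 and EK/3: numerical bounds in the regions (by helper999).
-/

set_option autoImplicit false

namespace Pool.Agent.N999.EK

theorem sq_of_abs {x b : ℝ} (h : |x| ≤ b) : x ^ 2 ≤ b ^ 2 := by
  rw [← sq_abs]
  exact pow_le_pow_left₀ (abs_nonneg x) h 2

/-- the full rectangle -/
theorem regD {a : ℂ} (hx : |a.re| ≤ 21 / 40) (hy : |a.im| ≤ 1 / 8) :
    ‖Complex.sin a‖ ^ 2 ≤ 2726 / 10000 ∧ 8621 / 10000 ≤ (Complex.cos a).re ∧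
    (Complex.cos a).re ≤ 1008 / 1000 ∧ |(Complex.cos a).im| ≤ 639 / 10000 ∧
    7433 / 10000 ≤ ‖Complex.cos a‖ ^ 2 ∧ ‖Complex.cos a‖ ^ 2 ≤ 10159 / 10000 ∧
    ‖Complex.cos a - 1‖ ≤ 1457 / 10000 := by
  have hx2 : a.re ^ 2 ≤ 275625 / 1000000 := (sq_of_abs hx).trans (by norm_num)
  have hy2 : a.im ^ 2 ≤ 1 / 64 := (sq_of_abs hy).trans (by norm_num)
  have hsin : Real.sin a.re ^ 2 ≤ 256634 / 1000000 :=
    (sin_sq_le hx2 (by norm_num)).trans (by norm_num)
  have hcos := cos_ge hx2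
  have hsh : Real.sinh a.im ^ 2 ≤ 1 / 63 := (sinh_sq_le hy2 (by norm_num)).trans (by norm_num)
  have hch2 := Real.cosh_sq a.im
  have hch1 : 1 ≤ Real.cosh a.im := Real.one_le_cosh a.im
  have hch : Real.cosh a.im ≤ 1008 / 1000 := by
    have h1 : Real.cosh a.im ^ 2 ≤ (1008 / 1000 : ℝ) ^ 2 := by rw [hch2]; norm_num; linarith
    exact le_of_sq_le_sq h1 (by norm_num)
  have hcs := Real.sin_sq_add_cos_sq a.re
  have hc1 := Real.cos_le_one a.re
  refine ⟨(sin_box hx2 hy2 (by norm_num) (by norm_num)).trans (by norm_num), ?_, ?_, ?_, ?_, ?_, ?_⟩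
  · rw [(cos_reim a).1]
    have h0 : 8621 / 10000 ≤ Real.cos a.re := by linarith
    nlinarith
  · rw [(cos_reim a).1]
    have h0 : 0 ≤ Real.cos a.re := by linarith
    nlinarith
  · rw [(cos_reim a).2, abs_neg]
    apply abs_le_of_sq_le_sq _ (by norm_num)
    rw [mul_pow]
    calc Real.sin a.re ^ 2 * Real.sinh a.im ^ 2 ≤ 256634 / 1000000 * (1 / 63) :=
          mul_le_mul hsin hsh (sq_nonneg _) (by norm_num)
      _ ≤ _ := by norm_num
  · rw [norm_cos_sq]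
    nlinarith [sq_nonneg (Real.sinh a.im)]
  · rw [norm_cos_sq]
    nlinarith [sq_nonneg (Real.sin a.re)]
  · rw [norm_cos_sub_one]
    have h1 : (a / 2).re ^ 2 ≤ 275625 / 4000000 := by
      have : (a / 2).re = a.re / 2 := by simp
      rw [this]
      nlinarith
    have h2 : (a / 2).im ^ 2 ≤ 1 / 256 := by
      have : (a / 2).im = a.im / 2 := by simp
      rw [this]
      nlinarith
    have h3 := norm_sin_sq (a / 2)
    have h4 := sin_sq_le' (a / 2).re
    have h5 := (sinh_sq_le h2 (by norm_num)).trans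
      (show (1 / 256 : ℝ) / (1 - 1 / 256) ≤ 1 / 255 by norm_num)
    rw [h3]
    linarith

/-- half of the rectangle -/
theorem regH {a : ℂ} (hx : |a.re| ≤ 21 / 80) (hy : |a.im| ≤ 1 / 16) :
    ‖Complex.sin a‖ ^ 2 ≤ 729 / 10000 ∧ ‖Complex.cos a - 1‖ ≤ 365 / 10000 ∧
    9655 / 10000 ≤ ‖Complex.cos a‖ := by
  have hx2 : a.re ^ 2 ≤ 6890625 / 100000000 := (sq_of_abs hx).trans (by norm_num)
  have hy2 : a.im ^ 2 ≤ 1 / 256 := (sq_of_abs hy).trans (by norm_num)
  refine ⟨?_, ?_, ?_⟩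
  · have h3 := norm_sin_sq a
    have h4 := sin_sq_le' a.re
    have h5 := sinh_sq_le hy2 (by norm_num)
    rw [h3]
    norm_num at h5 ⊢
    linarith
  · rw [norm_cos_sub_one]
    have h1 : (a / 2).re ^ 2 ≤ 6890625 / 400000000 := by
      have : (a / 2).re = a.re / 2 := by simp
      rw [this]
      nlinarith
    have h2 : (a / 2).im ^ 2 ≤ 1 / 1024 := by
      have : (a / 2).im = a.im / 2 := by simp
      rw [this]
      nlinarith
    have h3 := norm_sin_sq (a / 2)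
    have h4 := sin_sq_le' (a / 2).re
    have h5 := (sinh_sq_le h2 (by norm_num)).trans
      (show (1 / 1024 : ℝ) / (1 - 1 / 1024) ≤ 1 / 1023 by norm_num)
    rw [h3]
    linarith
  · have h1 := cos_ge hx2
    have h2 : (Complex.cos a).re ≤ ‖Complex.cos a‖ := Complex.re_le_norm _
    rw [(cos_reim a).1] at h2
    have hch1 : 1 ≤ Real.cosh a.im := Real.one_le_cosh a.im
    have h0 : 9655 / 10000 ≤ Real.cos a.re := by linarith
    nlinarith

/-- the disc -/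
theorem reg1 {a : ℂ} (hx : ‖a‖ ≤ 21 / 100) (hy : |a.im| ≤ 23 / 200) :
    ‖Complex.sin a‖ ^ 2 ≤ 443 / 10000 ∧ ‖Complex.cos a - 1‖ ≤ 221 / 10000 ∧
    9779 / 10000 ≤ ‖Complex.cos a‖ := by
  have hx2 : ‖a‖ ^ 2 ≤ 441 / 10000 :=
    (pow_le_pow_left₀ (norm_nonneg a) hx 2).trans (by norm_num)
  have hy2 : a.im ^ 2 ≤ 13225 / 1000000 := (sq_of_abs hy).trans (by norm_num)
  have hc : ‖Complex.cos a - 1‖ ≤ 221 / 10000 := by
    rw [norm_cos_sub_one]
    have h1 : ‖a / 2‖ ^ 2 ≤ 441 / 40000 := by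
      rw [norm_div, Complex.norm_two, div_pow]
      linarith
    have h2 : (a / 2).im ^ 2 ≤ 13225 / 4000000 := by
      have : (a / 2).im = a.im / 2 := by simp
      rw [this]
      nlinarith
    have h3 := sin_disc h1 h2 (by norm_num)
    norm_num at h3 ⊢
    linarith
  refine ⟨(sin_disc hx2 hy2 (by norm_num)).trans (by norm_num), hc, ?_⟩
  have h1 : ‖1 - Complex.cos a‖ ≤ 221 / 10000 := by
    rw [norm_sub_rev]
    exact hc
  have := norm_ge_of_sub h1
  linarith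

theorem r_bd {a b : ℂ} {p q ε : ℝ} (ha : ‖Complex.sin a‖ ^ 2 ≤ p) (hb : ‖Complex.sin b‖ ^ 2 ≤ q)
    (hpq : p * q < 1) (hε : p * q ≤ ε * (2 - p * q)) :
    ‖1 - (1 - Complex.sin a ^ 2 * Complex.sin b ^ 2) ^ (1 / 2 : ℂ)‖ ≤ ε := by
  have hp : 0 ≤ p := (sq_nonneg _).trans ha
  have hw : ‖Complex.sin a ^ 2 * Complex.sin b ^ 2‖ ≤ p * q := by
    rw [norm_mul, norm_pow, norm_pow]
    exact mul_le_mul ha hb (sq_nonneg _) hp
  have h1 := (sqrt_facts hw hpq).2
  have h2 : 0 < 2 - p * q := by linarith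
  exact le_of_mul_le_mul_right (h1.trans hε) h2

/-- the square root -/
noncomputable def sr (a b : ℂ) : ℂ := (1 - Complex.sin a ^ 2 * Complex.sin b ^ 2) ^ (1 / 2 : ℂ)

/-- `DD × DD` -/
theorem q_DD {a b : ℂ} (hx : |a.re| ≤ 21 / 40) (hy : |a.im| ≤ 1 / 8) (hx' : |b.re| ≤ 21 / 40)
    (hy' : |b.im| ≤ 1 / 8) :
    ‖1 - sr a b‖ ≤ 387 / 10000 ∧
    ‖Complex.cos b / (Complex.cos a * sr a b) - 1‖ ≤ 275 / 1000 := by
  obtain ⟨s1, c1, c2, d1, n1, n2, o1⟩ := regD hx hy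
  obtain ⟨s1', c1', c2', d1', n1', n2', o1'⟩ := regD hx' hy'
  have hr : ‖1 - sr a b‖ ≤ 387 / 10000 := r_bd s1 s1' (by norm_num) (by norm_num)
  refine ⟨hr, ?_⟩
  have hC : 8621 / 10000 ≤ ‖Complex.cos a‖ := c1.trans (Complex.re_le_norm _)
  have hD : ‖Complex.cos b - Complex.cos a‖ ≤ 194 / 1000 := by
    apply le_of_sq_le_sq _ (by norm_num)
    rw [Complex.sq_norm, Complex.normSq_apply, Complex.sub_re, Complex.sub_im]
    have h1 : |(Complex.cos b).re - (Complex.cos a).re| ≤ 1459 / 10000 := by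
      rw [abs_le]
      constructor <;> linarith
    have h2 : |(Complex.cos b).im - (Complex.cos a).im| ≤ 1278 / 10000 := by
      have h3 := abs_le.1 d1
      have h4 := abs_le.1 d1'
      rw [abs_le]
      constructor <;> linarith [h3.1, h3.2, h4.1, h4.2]
    have h5 := sq_of_abs h1
    have h6 := sq_of_abs h2
    nlinarith
  exact (quot_bd (by norm_num) hC hD (by norm_num) hr).trans (by norm_num)

/-- half `DD × DD` -/
theorem q_HD {a b : ℂ} (hx : |a.re| ≤ 21 / 80) (hy : |a.im| ≤ 1 / 16) (hx' : |b.re| ≤ 21 / 40)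
    (hy' : |b.im| ≤ 1 / 8) :
    ‖Complex.cos b / (Complex.cos a * sr a b) - 1‖ ≤ 201 / 1000 := by
  obtain ⟨s1, o1, n1⟩ := regH hx hy
  obtain ⟨s1', c1', c2', d1', n1', n2', o1'⟩ := regD hx' hy'
  have hr : ‖1 - sr a b‖ ≤ 101 / 10000 := r_bd s1 s1' (by norm_num) (by norm_num)
  have hD : ‖Complex.cos b - Complex.cos a‖ ≤ 1822 / 10000 := by
    have e : Complex.cos b - Complex.cos a = (Complex.cos b - 1) - (Complex.cos a - 1) := by ring
    rw [e]
    refine (norm_sub_le _ _).trans ?_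
    linarith
  exact (quot_bd (by norm_num) n1 hD (by norm_num) hr).trans (by norm_num)

/-- `D1 × DD` -/
theorem q_1D {a b : ℂ} (hx : ‖a‖ ≤ 21 / 100) (hy : |a.im| ≤ 23 / 200) (hx' : |b.re| ≤ 21 / 40)
    (hy' : |b.im| ≤ 1 / 8) :
    ‖Complex.cos b / (Complex.cos a * sr a b) - 1‖ ≤ 1 / 4 ∧
    ‖Complex.sin a * Complex.sin b / sr a b‖ ≤ 3 / 20 := by
  obtain ⟨s1, o1, n1⟩ := reg1 hx hy
  obtain ⟨s1', c1', c2', d1', n1', n2', o1'⟩ := regD hx' hy'
  have hr : ‖1 - sr a b‖ ≤ 62 / 10000 := r_bd s1 s1' (by norm_num) (by norm_num)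
  have hD : ‖Complex.cos b - Complex.cos a‖ ≤ 1678 / 10000 := by
    have e : Complex.cos b - Complex.cos a = (Complex.cos b - 1) - (Complex.cos a - 1) := by ring
    rw [e]
    refine (norm_sub_le _ _).trans ?_
    linarith
  refine ⟨(quot_bd (by norm_num) n1 hD (by norm_num) hr).trans (by norm_num), ?_⟩
  have hr1 := norm_ge_of_sub hr
  have hs : ‖Complex.sin a * Complex.sin b‖ ≤ 11 / 100 := by
    apply le_of_sq_le_sq _ (by norm_num)
    rw [norm_mul, mul_pow]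
    exact (mul_le_mul s1 s1' (sq_nonneg _) (by norm_num)).trans (by norm_num)
  rw [norm_div, div_le_iff₀ (by linarith)]
  linarith

/-- `D1 × D1` -/
theorem q_11 {a b : ℂ} (hx : ‖a‖ ≤ 21 / 100) (hy : |a.im| ≤ 23 / 200) (hx' : ‖b‖ ≤ 21 / 100)
    (hy' : |b.im| ≤ 23 / 200) :
    ‖Complex.cos b / (Complex.cos a * sr a b) - 1‖ ≤ 1 / 20 ∧
    ‖Complex.sin a * Complex.sin b / sr a b‖ ≤ 1 / 20 := by
  obtain ⟨s1, o1, n1⟩ := reg1 hx hy
  obtain ⟨s1', o1', n1'⟩ := reg1 hx' hy'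
  have hr : ‖1 - sr a b‖ ≤ 1 / 1000 := r_bd s1 s1' (by norm_num) (by norm_num)
  have hD : ‖Complex.cos b - Complex.cos a‖ ≤ 442 / 10000 := by
    have e : Complex.cos b - Complex.cos a = (Complex.cos b - 1) - (Complex.cos a - 1) := by ring
    rw [e]
    refine (norm_sub_le _ _).trans ?_
    linarith
  refine ⟨(quot_bd (by norm_num) n1 hD (by norm_num) hr).trans (by norm_num), ?_⟩
  have hr1 := norm_ge_of_sub hr
  have hs : ‖Complex.sin a * Complex.sin b‖ ≤ 443 / 10000 := by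
    apply le_of_sq_le_sq _ (by norm_num)
    rw [norm_mul, mul_pow]
    exact (mul_le_mul s1 s1' (sq_nonneg _) (by norm_num)).trans (by norm_num)
  rw [norm_div, div_le_iff₀ (by linarith)]
  linarith

/-- the Hessian -/
theorem hes_DD {a b : ℂ} (hx : |a.re| ≤ 21 / 40) (hy : |a.im| ≤ 1 / 8) (hx' : |b.re| ≤ 21 / 40)
    (hy' : |b.im| ≤ 1 / 8) (u v : ℝ) :
    3 / 5 * (u ^ 2 + v ^ 2) ≤
      (Complex.cos b / (Complex.cos a * sr a b)).re * u ^ 2 -
      2 * (Complex.sin a * Complex.sin b / sr a b).re * u * v +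
      (Complex.cos a / (Complex.cos b * sr a b)).re * v ^ 2 := by
  obtain ⟨s1, c1, c2, d1, n1, n2, o1⟩ := regD hx hy
  obtain ⟨s1', c1', c2', d1', n1', n2', o1'⟩ := regD hx' hy'
  have hr : ‖1 - sr a b‖ ≤ 387 / 10000 := (q_DD hx hy hx' hy').1
  have hr1 := norm_ge_of_sub hr
  have hr0 : sr a b ≠ 0 := by
    intro h0
    rw [h0, norm_zero] at hr1
    norm_num at hr1
  obtain ⟨C, hC⟩ : ∃ C : ℂ, C = Complex.cos a := ⟨_, rfl⟩
  obtain ⟨C', hC'⟩ : ∃ C' : ℂ, C' = Complex.cos b := ⟨_, rfl⟩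
  obtain ⟨ρ, hρ⟩ : ∃ ρ : ℂ, ρ = 1 / sr a b := ⟨_, rfl⟩
  obtain ⟨t, ht⟩ : ∃ t : ℂ, t = C' / C := ⟨_, rfl⟩
  rw [← hC] at c1 c2 d1 n1 n2 ⊢
  rw [← hC'] at c1' c2' d1' n1' n2' ⊢
  have hC0 : C ≠ 0 := by
    intro h0
    rw [h0, Complex.zero_re] at c1
    norm_num at c1
  have hC'0 : C' ≠ 0 := by
    intro h0
    rw [h0, Complex.zero_re] at c1'
    norm_num at c1'
  have e1 : C' / (C * sr a b) = t * ρ := by
    rw [ht, hρ]
    field_simp
  have e2 : C / (C' * sr a b) = ρ / t := by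
    rw [ht, hρ]
    field_simp
  have e3 : Complex.sin a * Complex.sin b / sr a b = (Complex.sin a * Complex.sin b) * ρ := by
    rw [hρ]
    field_simp
  have hN : ‖C‖ ^ 2 = C.re ^ 2 + C.im ^ 2 := by
    rw [Complex.sq_norm, Complex.normSq_apply]
    ring
  have hN' : ‖C'‖ ^ 2 = C'.re ^ 2 + C'.im ^ 2 := by
    rw [Complex.sq_norm, Complex.normSq_apply]
    ring
  have hNC : Complex.normSq C = C.re ^ 2 + C.im ^ 2 := by
    rw [Complex.normSq_apply]
    ring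
  rw [hN] at n1 n2
  rw [hN'] at n1' n2'
  have hNpos : 0 < C.re ^ 2 + C.im ^ 2 := by linarith
  have htre : t.re = (C'.re * C.re + C'.im * C.im) / (C.re ^ 2 + C.im ^ 2) := by
    rw [ht, Complex.div_re, hNC]
    ring
  have htim : t.im = (C'.im * C.re - C'.re * C.im) / (C.re ^ 2 + C.im ^ 2) := by
    rw [ht, Complex.div_im, hNC]
    ring
  have htn : t.re ^ 2 + t.im ^ 2 = (C'.re ^ 2 + C'.im ^ 2) / (C.re ^ 2 + C.im ^ 2) := by
    rw [htre, htim]
    field_simp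
    ring
  have hd := abs_le.1 d1
  have hd' := abs_le.1 d1'
  have hdd : |C'.im * C.im| ≤ 639 / 10000 * (639 / 10000) := by
    rw [abs_mul]
    exact mul_le_mul d1' d1 (abs_nonneg _) (by norm_num)
  have h0 : 0 ≤ t.re := by
    rw [htre]
    apply div_nonneg _ hNpos.le
    have h1 : 8621 / 10000 * (8621 / 10000) ≤ C'.re * C.re :=
      mul_le_mul c1' c1 (by norm_num) (by linarith)
    have := (abs_le.1 hdd).1
    linarith
  have hn0 : 0 < t.re ^ 2 + t.im ^ 2 := by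
    rw [htn]
    apply div_pos _ hNpos
    linarith
  have hn1 : 731 / 1000 ≤ t.re ^ 2 + t.im ^ 2 := by
    rw [htn, le_div_iff₀ hNpos]
    linarith
  have hn2 : t.re ^ 2 + t.im ^ 2 ≤ 1368 / 1000 := by
    rw [htn, div_le_iff₀ hNpos]
    linarith
  have h1 : (t.re ^ 2 + t.im ^ 2 + 1) ^ 2 ≤ 41 / 10 * (t.re ^ 2 + t.im ^ 2) := by nlinarith
  have h2 : t.im ^ 2 ≤ 221 / 10000 * (t.re ^ 2 + t.im ^ 2) := by
    rw [htn, htim, div_pow, ← mul_div_assoc, div_le_div_iff₀ (by positivity) hNpos]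
    have k1 : (C'.im * C.re - C'.re * C.im) ^ 2 ≤
        221 / 10000 * ((C.re ^ 2 + C.im ^ 2) * (C'.re ^ 2 + C'.im ^ 2)) := by
      have k2 : |C'.im * C.re - C'.re * C.im| ≤ 639 / 10000 * (C.re + C'.re) := by
        refine (abs_sub _ _).trans ?_
        rw [abs_mul, abs_mul, abs_of_nonneg (show 0 ≤ C.re by linarith),
          abs_of_nonneg (show 0 ≤ C'.re by linarith)]
        have k3 := mul_le_mul_of_nonneg_right d1' (show 0 ≤ C.re by linarith)
        have k4 := mul_le_mul_of_nonneg_left d1 (show 0 ≤ C'.re by linarith)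
        linarith
      have k5 : 8621 / 10000 * (C.re + C'.re) ≤ 2 * (C.re * C'.re) := by
        have k6 := mul_le_mul_of_nonneg_right c1 (show 0 ≤ C'.re by linarith)
        have k7 := mul_le_mul_of_nonneg_left c1' (show 0 ≤ C.re by linarith)
        linarith
      have k8 : |C'.im * C.re - C'.re * C.im| ≤ 1483 / 10000 * (C.re * C'.re) := by
        have k9 : 0 ≤ C.re * C'.re := mul_nonneg (by linarith) (by linarith)
        nlinarith
      have k10 := sq_of_abs k8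
      refine k10.trans ?_
      have k11 : (C.re * C'.re) ^ 2 ≤ (C.re ^ 2 + C.im ^ 2) * (C'.re ^ 2 + C'.im ^ 2) := by
        rw [mul_pow]
        apply mul_le_mul <;> nlinarith [sq_nonneg C.im, sq_nonneg C'.im, sq_nonneg C.re, sq_nonneg C'.re]
      rw [mul_pow]
      nlinarith [sq_nonneg (C.re * C'.re)]
    nlinarith
  have hρn : ‖ρ - 1‖ ≤ 403 / 10000 := by
    have : ρ - 1 = (1 - sr a b) / sr a b := by
      rw [hρ]
      field_simp
    rw [this, norm_div, div_le_iff₀ (by linarith)]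
    linarith
  have h3 : (ρ.re - 1) ^ 2 + ρ.im ^ 2 ≤ (403 / 10000) ^ 2 := by
    have := pow_le_pow_left₀ (norm_nonneg (ρ - 1)) hρn 2
    rw [Complex.sq_norm, Complex.normSq_apply, Complex.sub_re, Complex.sub_im, Complex.one_re,
      Complex.one_im] at this
    linarith
  have h4 : ((Complex.sin a * Complex.sin b) * ρ).re ^ 2 ≤ 744 / 10000 * (ρ.re ^ 2 + ρ.im ^ 2) := by
    have k1 : |((Complex.sin a * Complex.sin b) * ρ).re| ≤ ‖(Complex.sin a * Complex.sin b) * ρ‖ :=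
      Complex.abs_re_le_norm _
    have k2 := sq_of_abs k1
    refine k2.trans ?_
    rw [norm_mul, norm_mul, mul_pow, mul_pow, Complex.sq_norm ρ, Complex.normSq_apply]
    have k3 : ‖Complex.sin a‖ ^ 2 * ‖Complex.sin b‖ ^ 2 ≤ 744 / 10000 :=
      (mul_le_mul s1 s1' (sq_nonneg _) (by norm_num)).trans (by norm_num)
    have k4 : 0 ≤ ρ.re * ρ.re + ρ.im * ρ.im := by nlinarith [mul_self_nonneg ρ.re, mul_self_nonneg ρ.im]
    have k5 := mul_le_mul_of_nonneg_right k3 k4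
    linarith
  have hmain := quad_form h0 hn0 h1 h2 h3 h4 u v
  rw [e1, e2, e3]
  have e4 : (t * ρ).re = t.re * ρ.re - t.im * ρ.im := Complex.mul_re _ _
  have e5 : (ρ / t).re = (t.re * ρ.re + t.im * ρ.im) / (t.re ^ 2 + t.im ^ 2) := by
    rw [Complex.div_re, Complex.normSq_apply]
    ring
  rw [e4, e5]
  exact hmain

end Pool.Agent.N999.EK
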