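import Pool.Agent.N561.EK.Stm
import Pool.Agent.N999.EK.Num2

/-!
Project EK (helper561), EK/2 and EK/3: bounds of the derivatives of the potential (by helper999).
-/

set_option autoImplicit false

namespace Pool.Agent.N999.EK

open Pool.Agent.N561.EK
open Pool.Agent.N561
open scoped Real

theorem rr_eq (ψ φ : ℂ) : rr ψ φ = sr (ψ / 2) (φ / 2) := rfl

theorem half_re (ψ : ℂ) : (ψ / 2).re = ψ.re / 2 := by simp

theorem half_im (ψ : ℂ) : (ψ / 2).im = ψ.im / 2 := by simp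

theorem inD {ψ : ℂ} (h : ψ ∈ DD) : |(ψ / 2).re| ≤ 21 / 40 ∧ |(ψ / 2).im| ≤ 1 / 8 := by
  obtain ⟨h1, h2⟩ := h
  rw [half_re, half_im, abs_div, abs_div, abs_of_pos (by norm_num : (0 : ℝ) < 2)]
  constructor <;> linarith

theorem in1 {ψ : ℂ} (h : ψ ∈ D1) : ‖ψ / 2‖ ≤ 21 / 100 ∧ |(ψ / 2).im| ≤ 23 / 200 := by
  obtain ⟨h1, h2⟩ := h
  rw [half_im, abs_div, abs_of_pos (by norm_num : (0 : ℝ) < 2), norm_div, Complex.norm_two]
  constructor <;> linarith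

/-- **EK/2.** -/
theorem hes : S_HES where
  hes := fun ψ hψ φ hφ u v => by
    obtain ⟨h1, h2⟩ := inD hψ
    obtain ⟨h3, h4⟩ := inD hφ
    rw [rr_eq]
    exact hes_DD h1 h2 h3 h4 u v
  mixb := fun ψ hψ φ hφ => by
    obtain ⟨h1, h2⟩ := in1 hψ
    obtain ⟨h3, h4⟩ := in1 hφ
    rw [rr_eq]
    exact (q_11 h1 h2 h3 h4).2
  mixc := fun ψ hψ φ hφ => by
    obtain ⟨h1, h2⟩ := in1 hψ
    obtain ⟨h3, h4⟩ := inD hφ
    rw [rr_eq]
    exact (q_1D h1 h2 h3 h4).2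
  sec1 := fun ψ hψ φ hφ => by
    obtain ⟨h1, h2⟩ := in1 hψ
    obtain ⟨h3, h4⟩ := in1 hφ
    rw [rr_eq]
    exact (q_11 h1 h2 h3 h4).1.trans (by norm_num)
  sec2 := fun ψ hψ φ hφ => by
    obtain ⟨h1, h2⟩ := in1 hψ
    obtain ⟨h3, h4⟩ := inD hφ
    rw [rr_eq]
    exact (q_1D h1 h2 h3 h4).1

theorem zero_mem_DD : (0 : ℂ) ∈ DD := by
  constructor
  · rw [Complex.zero_re, abs_zero]; norm_num
  · rw [Complex.zero_im, abs_zero]; norm_num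

theorem D1_sub : D1 ⊆ DD := by
  intro w hw
  obtain ⟨h1, h2⟩ := hw
  have h3 := Complex.abs_re_le_norm w
  constructor
  · linarith
  · linarith

theorem s1_zero (hP : POT) {φ : ℂ} (hφ : φ ∈ DD) : s1 0 φ = 0 := by
  rw [hP.e1 0 zero_mem_DD φ hφ, zero_div, Complex.tan_zero, zero_mul, ash]
  norm_num

/-- the function which is estimated -/
noncomputable def ff (φ ψ : ℂ) : ℂ := s1 ψ φ + ψ / (2 * π)

theorem ff_der (hP : POT) {ψ φ : ℂ} (hψ : ψ ∈ DD) (hφ : φ ∈ DD) :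
    HasDerivAt (ff φ) (-(1 / (2 * π)) *
      (Complex.cos (φ / 2) / (Complex.cos (ψ / 2) * rr ψ φ) - 1)) ψ := by
  have h1 := (hP.d11 ψ hψ φ hφ).add ((hasDerivAt_id ψ).div_const ((2 : ℂ) * π))
  refine h1.congr_deriv ?_
  ring

theorem norm_der {Q : ℂ} {b : ℝ} (hQ : ‖Q‖ ≤ b) : ‖-(1 / (2 * (π : ℂ))) * Q‖ ≤ b / (2 * π) := by
  have h1 : ‖-(1 / (2 * (π : ℂ)))‖ = 1 / (2 * π) := by
    rw [norm_neg, norm_div, norm_one, norm_mul, Complex.norm_two, Complex.norm_real,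
      Real.norm_of_nonneg Real.pi_pos.le]
  rw [norm_mul, h1]
  have : 0 < 2 * π := by positivity
  rw [div_mul_eq_mul_div, one_mul]
  exact div_le_div_of_nonneg_right hQ this.le

theorem mean {φ x y : ℂ} {b : ℝ} (hP : POT) (hφ : φ ∈ DD) {s : Set ℂ} (hs : Convex ℝ s)
    (hsD : s ⊆ DD) (hb : ∀ ψ ∈ s, ‖Complex.cos (φ / 2) / (Complex.cos (ψ / 2) * rr ψ φ) - 1‖ ≤ b)
    (hx : x ∈ s) (hy : y ∈ s) : ‖ff φ y - ff φ x‖ ≤ b / (2 * π) * ‖y - x‖ :=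
  hs.norm_image_sub_le_of_norm_hasDerivWithin_le
    (fun ψ hψ => (ff_der hP (hsD hψ) hφ).hasDerivWithinAt) (fun ψ hψ => norm_der (hb ψ hψ)) hx hy

theorem convex_box (a b : ℝ) : Convex ℝ {w : ℂ | |w.re| ≤ a ∧ |w.im| ≤ b} := by
  have h : {w : ℂ | |w.re| ≤ a ∧ |w.im| ≤ b} =
      (Complex.reLm ⁻¹' (Set.Icc (-a) a)) ∩ (Complex.imLm ⁻¹' (Set.Icc (-b) b)) := by
    ext w
    change |w.re| ≤ a ∧ |w.im| ≤ b ↔ (-a ≤ w.re ∧ w.re ≤ a) ∧ (-b ≤ w.im ∧ w.im ≤ b)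
    rw [abs_le, abs_le]
  rw [h]
  exact ((convex_Icc _ _).linear_preimage _).inter ((convex_Icc _ _).linear_preimage _)

theorem convex_DD : Convex ℝ DD := by
  have h : DD = (Complex.reLm ⁻¹' (Set.Ioo (-(21 / 20)) (21 / 20))) ∩
      (Complex.imLm ⁻¹' (Set.Ioo (-(1 / 4)) (1 / 4))) := by
    ext w
    change |w.re| < 21 / 20 ∧ |w.im| < 1 / 4 ↔
      (-(21 / 20) < w.re ∧ w.re < 21 / 20) ∧ (-(1 / 4) < w.im ∧ w.im < 1 / 4)
    rw [abs_lt, abs_lt]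
  rw [h]
  exact ((convex_Ioo _ _).linear_preimage _).inter ((convex_Ioo _ _).linear_preimage _)

theorem convex_D1 : Convex ℝ D1 := by
  have h : D1 = Metric.closedBall (0 : ℂ) (21 / 50) ∩
      (Complex.imLm ⁻¹' (Set.Icc (-(23 / 100)) (23 / 100))) := by
    ext w
    rw [Set.mem_inter_iff, mem_closedBall_zero_iff]
    change ‖w‖ ≤ 21 / 50 ∧ |w.im| ≤ 23 / 100 ↔ ‖w‖ ≤ 21 / 50 ∧
      (-(23 / 100) ≤ w.im ∧ w.im ≤ 23 / 100)
    rw [abs_le]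
  rw [h]
  exact (convex_closedBall _ _).inter ((convex_Icc _ _).linear_preimage _)

/-- **EK/3.** -/
theorem mul : S_MUL := by
  intro hP _
  refine ⟨fun ψ hψ φ hφ => ?_, fun ψ hψ φ hφ => ?_⟩
  · have h0 : ff φ 0 = 0 := by
      rw [ff, s1_zero hP hφ, zero_div, add_zero]
    have hπ : 0 < 2 * π := by positivity
    obtain ⟨k1, k2⟩ := inD hφ
    -- the inner half
    have h1 : ‖ff φ (ψ / 2) - ff φ 0‖ ≤ 201 / 1000 / (2 * π) * ‖ψ / 2 - 0‖ := by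
      refine mean hP hφ (convex_box (21 / 40) (1 / 8)) ?_ ?_ ?_ ?_
      · intro w hw
        exact ⟨lt_of_le_of_lt hw.1 (by norm_num), lt_of_le_of_lt hw.2 (by norm_num)⟩
      · intro w hw
        rw [rr_eq]
        refine q_HD ?_ ?_ k1 k2
        · rw [half_re, abs_div, abs_of_pos (by norm_num : (0 : ℝ) < 2)]
          linarith [hw.1]
        · rw [half_im, abs_div, abs_of_pos (by norm_num : (0 : ℝ) < 2)]
          linarith [hw.2]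
      · constructor
        · rw [Complex.zero_re, abs_zero]; norm_num
        · rw [Complex.zero_im, abs_zero]; norm_num
      · exact inD hψ
    have h2 : ‖ff φ ψ - ff φ (ψ / 2)‖ ≤ 275 / 1000 / (2 * π) * ‖ψ - ψ / 2‖ := by
      refine mean hP hφ convex_DD (fun w hw => hw) ?_ ?_ hψ
      · intro w hw
        obtain ⟨k3, k4⟩ := inD hw
        rw [rr_eq]
        exact (q_DD k3 k4 k1 k2).2
      · obtain ⟨k3, k4⟩ := inD hψ
        exact ⟨lt_of_le_of_lt k3 (by norm_num), lt_of_le_of_lt k4 (by norm_num)⟩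
    have e1 : ‖ψ / 2 - 0‖ = ‖ψ‖ / 2 := by rw [sub_zero, norm_div, Complex.norm_two]
    have e2 : ‖ψ - ψ / 2‖ = ‖ψ‖ / 2 := by
      have : ψ - ψ / 2 = ψ / 2 := by ring
      rw [this, norm_div, Complex.norm_two]
    rw [h0, sub_zero, e1] at h1
    rw [e2] at h2
    have h3 : ‖ff φ ψ‖ ≤ ‖ff φ ψ - ff φ (ψ / 2)‖ + ‖ff φ (ψ / 2)‖ := by
      calc ‖ff φ ψ‖ = ‖(ff φ ψ - ff φ (ψ / 2)) + ff φ (ψ / 2)‖ := by rw [sub_add_cancel]
        _ ≤ _ := norm_add_le _ _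
    have h4 : 0 ≤ ‖ψ‖ / (2 * π) := by positivity
    have e3 : 201 / 1000 / (2 * π) * (‖ψ‖ / 2) = 201 / 2000 * (‖ψ‖ / (2 * π)) := by ring
    have e4 : 275 / 1000 / (2 * π) * (‖ψ‖ / 2) = 275 / 2000 * (‖ψ‖ / (2 * π)) := by ring
    have e5 : 1 / 4 * ‖ψ‖ / (2 * π) = 1 / 4 * (‖ψ‖ / (2 * π)) := by ring
    rw [e3] at h1
    rw [e4] at h2
    rw [e5]
    change ‖ff φ ψ‖ ≤ _
    linarith
  · have hφD := D1_sub hφ
    have h0 : ff φ 0 = 0 := by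
      rw [ff, s1_zero hP hφD, zero_div, add_zero]
    obtain ⟨k1, k2⟩ := in1 hφ
    have h1 : ‖ff φ ψ - ff φ 0‖ ≤ 1 / 20 / (2 * π) * ‖ψ - 0‖ := by
      refine mean hP hφD convex_D1 D1_sub ?_ ?_ hψ
      · intro w hw
        obtain ⟨k3, k4⟩ := in1 hw
        rw [rr_eq]
        exact (q_11 k3 k4 k1 k2).1
      · constructor
        · rw [norm_zero]; norm_num
        · rw [Complex.zero_im, abs_zero]; norm_num
    rw [h0, sub_zero, sub_zero] at h1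
    change ‖ff φ ψ‖ ≤ _
    refine h1.trans (le_of_eq ?_)
    ring

end Pool.Agent.N999.EK
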