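import Mathlib

/-!
Project EK (helper561), EK/2 and EK/3: numerical bounds for elementary functions (by helper999).
-/

set_option autoImplicit false

namespace Pool.Agent.N999.EK

/-! ### Real functions -/

theorem cosh_sq_le {y : ℝ} (hy : y ^ 2 < 1) : Real.cosh y ^ 2 ≤ 1 / (1 - y ^ 2) := by
  have h1 : Real.cosh y ≤ Real.exp (y ^ 2 / 2) := Real.cosh_le_exp_half_sq y
  have h2 : Real.cosh y ^ 2 ≤ Real.exp (y ^ 2) := by
    calc Real.cosh y ^ 2 ≤ (Real.exp (y ^ 2 / 2)) ^ 2 := pow_le_pow_left₀ (Real.cosh_pos y).le h1 2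
      _ = Real.exp (y ^ 2) := by
          rw [← Real.exp_nat_mul]
          congr 1
          push_cast
          ring
  have h3 : 1 - y ^ 2 ≤ Real.exp (-(y ^ 2)) := by
    have := Real.add_one_le_exp (-(y ^ 2))
    linarith
  rw [le_div_iff₀ (by linarith)]
  calc Real.cosh y ^ 2 * (1 - y ^ 2) ≤ Real.exp (y ^ 2) * Real.exp (-(y ^ 2)) :=
        mul_le_mul h2 h3 (by linarith) (Real.exp_pos _).le
    _ = 1 := by rw [← Real.exp_add, add_neg_cancel, Real.exp_zero]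

theorem sinh_sq_le {y b : ℝ} (hy : y ^ 2 ≤ b) (hb : b < 1) : Real.sinh y ^ 2 ≤ b / (1 - b) := by
  have h1 := cosh_sq_le (lt_of_le_of_lt hy hb)
  have h2 : Real.sinh y ^ 2 = Real.cosh y ^ 2 - 1 := by
    have := Real.cosh_sq y
    linarith
  have h3 : 1 / (1 - y ^ 2) ≤ 1 / (1 - b) := by
    apply one_div_le_one_div_of_le <;> linarith
  have h4 : b / (1 - b) = 1 / (1 - b) - 1 := by
    have : 1 - b ≠ 0 := by linarith
    field_simp
    ring
  rw [h2, h4]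
  linarith

theorem cos_ge {x X : ℝ} (hx : x ^ 2 ≤ X) : 1 - X / 2 ≤ Real.cos x := by
  have := Real.one_sub_sq_div_two_le_cos (x := x)
  linarith

theorem sin_sq_le {x X : ℝ} (hx : x ^ 2 ≤ X) (hX : X ≤ 2) : Real.sin x ^ 2 ≤ X - X ^ 2 / 4 := by
  have h1 := cos_ge hx
  have h2 : 0 ≤ 1 - X / 2 := by linarith
  have h3 : (1 - X / 2) ^ 2 ≤ Real.cos x ^ 2 := pow_le_pow_left₀ h2 h1 2
  have h4 := Real.sin_sq_add_cos_sq x
  nlinarith

theorem sin_sq_le' (x : ℝ) : Real.sin x ^ 2 ≤ x ^ 2 := by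
  rw [sq_le_sq]
  exact Real.abs_sin_le_abs (x := x)

/-! ### Complex functions -/

theorem reim_mk (a b : ℝ) : ((a : ℂ) + (b : ℂ) * Complex.I).re = a ∧
    ((a : ℂ) + (b : ℂ) * Complex.I).im = b := by
  constructor <;> simp

theorem sin_reim (z : ℂ) : (Complex.sin z).re = Real.sin z.re * Real.cosh z.im ∧
    (Complex.sin z).im = Real.cos z.re * Real.sinh z.im := by
  have h : Complex.sin z = ((Real.sin z.re * Real.cosh z.im : ℝ) : ℂ) +
      ((Real.cos z.re * Real.sinh z.im : ℝ) : ℂ) * Complex.I := by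
    rw [Complex.sin_eq]
    push_cast
    ring
  rw [h]
  exact reim_mk _ _

theorem cos_reim (z : ℂ) : (Complex.cos z).re = Real.cos z.re * Real.cosh z.im ∧
    (Complex.cos z).im = -(Real.sin z.re * Real.sinh z.im) := by
  have h : Complex.cos z = ((Real.cos z.re * Real.cosh z.im : ℝ) : ℂ) +
      ((-(Real.sin z.re * Real.sinh z.im) : ℝ) : ℂ) * Complex.I := by
    rw [Complex.cos_eq]
    push_cast
    ring
  rw [h]
  exact reim_mk _ _

theorem norm_sin_sq (z : ℂ) : ‖Complex.sin z‖ ^ 2 = Real.sin z.re ^ 2 + Real.sinh z.im ^ 2 := by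
  rw [Complex.sq_norm, Complex.normSq_apply, (sin_reim z).1, (sin_reim z).2]
  have h1 := Real.cosh_sq z.im
  have h2 := Real.sin_sq_add_cos_sq z.re
  have h3 : Real.cos z.re ^ 2 = 1 - Real.sin z.re ^ 2 := by linarith
  calc Real.sin z.re * Real.cosh z.im * (Real.sin z.re * Real.cosh z.im) +
      Real.cos z.re * Real.sinh z.im * (Real.cos z.re * Real.sinh z.im)
      = Real.sin z.re ^ 2 * Real.cosh z.im ^ 2 + Real.cos z.re ^ 2 * Real.sinh z.im ^ 2 := by ring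
    _ = _ := by rw [h1, h3]; ring

theorem norm_cos_sq (z : ℂ) : ‖Complex.cos z‖ ^ 2 = Real.cos z.re ^ 2 + Real.sinh z.im ^ 2 := by
  rw [Complex.sq_norm, Complex.normSq_apply, (cos_reim z).1, (cos_reim z).2]
  have h1 := Real.cosh_sq z.im
  have h2 := Real.sin_sq_add_cos_sq z.re
  have h3 : Real.sin z.re ^ 2 = 1 - Real.cos z.re ^ 2 := by linarith
  calc Real.cos z.re * Real.cosh z.im * (Real.cos z.re * Real.cosh z.im) +
      -(Real.sin z.re * Real.sinh z.im) * -(Real.sin z.re * Real.sinh z.im)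
      = Real.cos z.re ^ 2 * Real.cosh z.im ^ 2 + Real.sin z.re ^ 2 * Real.sinh z.im ^ 2 := by ring
    _ = _ := by rw [h1, h3]; ring

theorem norm_cos_sub_one (z : ℂ) : ‖Complex.cos z - 1‖ = 2 * ‖Complex.sin (z / 2)‖ ^ 2 := by
  have h1 : Complex.cos z - 1 = -(2 * Complex.sin (z / 2) ^ 2) := by
    have h2 : Complex.cos z = Complex.cos (2 * (z / 2)) := by
      congr 1
      ring
    rw [h2, Complex.cos_two_mul]
    have h3 := Complex.sin_sq_add_cos_sq (z / 2)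
    linear_combination 2 * h3
  rw [h1, norm_neg, norm_mul, norm_pow]
  simp

/-- bound of `sin` in a rectangle -/
theorem sin_box {z : ℂ} {X Y : ℝ} (hx : z.re ^ 2 ≤ X) (hy : z.im ^ 2 ≤ Y) (hX : X ≤ 2)
    (hY : Y < 1) : ‖Complex.sin z‖ ^ 2 ≤ X - X ^ 2 / 4 + Y / (1 - Y) := by
  rw [norm_sin_sq]
  exact add_le_add (sin_sq_le hx hX) (sinh_sq_le hy hY)

/-- bound of `sin` in a disc -/
theorem sin_disc {z : ℂ} {R Y : ℝ} (hR : ‖z‖ ^ 2 ≤ R) (hy : z.im ^ 2 ≤ Y) (hY : Y < 1) :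
    ‖Complex.sin z‖ ^ 2 ≤ R + Y ^ 2 / (1 - Y) := by
  rw [norm_sin_sq]
  have h1 : z.re ^ 2 + z.im ^ 2 ≤ R := by
    rw [Complex.sq_norm, Complex.normSq_apply] at hR
    linarith
  have h2 := sinh_sq_le (y := z.im) (b := z.im ^ 2) le_rfl (lt_of_le_of_lt hy hY)
  have h3 : z.im ^ 2 / (1 - z.im ^ 2) = z.im ^ 2 + (z.im ^ 2) ^ 2 / (1 - z.im ^ 2) := by
    have : 1 - z.im ^ 2 ≠ 0 := by linarith
    field_simp
    ring
  have h4 : (z.im ^ 2) ^ 2 / (1 - z.im ^ 2) ≤ Y ^ 2 / (1 - Y) := by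
    apply div_le_div₀ (by positivity) (pow_le_pow_left₀ (sq_nonneg _) hy 2) (by linarith)
      (by linarith)
  have h5 := sin_sq_le' z.re
  linarith

/-! ### The square root -/

theorem sqrt_facts {w : ℂ} {δ : ℝ} (hw : ‖w‖ ≤ δ) (hδ : δ < 1) :
    ((1 - w) ^ (1 / 2 : ℂ)) ^ 2 = 1 - w ∧ ‖1 - (1 - w) ^ (1 / 2 : ℂ)‖ * (2 - δ) ≤ δ := by
  have hδ0 : 0 ≤ δ := (norm_nonneg w).trans hw
  set r : ℂ := (1 - w) ^ (1 / 2 : ℂ) with hr
  have hne : (1 - w) ≠ 0 := by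
    intro h0
    have : ‖w‖ = 1 := by
      rw [← sub_eq_zero.1 h0, norm_one]
    linarith
  have hsq : r ^ 2 = 1 - w := by
    rw [hr, ← Complex.cpow_nat_mul]
    norm_num
  refine ⟨hsq, ?_⟩
  have hre : 0 ≤ r.re := by
    rw [hr, Complex.cpow_def_of_ne_zero hne, Complex.exp_re]
    apply mul_nonneg (Real.exp_pos _).le
    have him : (Complex.log (1 - w) * (1 / 2 : ℂ)).im = Complex.arg (1 - w) / 2 := by
      have : (1 / 2 : ℂ) = ((1 / 2 : ℝ) : ℂ) := by push_cast; rfl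
      rw [this, Complex.im_mul_ofReal, Complex.log_im]
      ring
    rw [him]
    apply Real.cos_nonneg_of_neg_pi_div_two_le_of_le
    · have := Complex.neg_pi_lt_arg (1 - w)
      linarith
    · have := Complex.arg_le_pi (1 - w)
      linarith
  have h1 : (1 - r) * (1 + r) = w := by
    linear_combination -hsq
  have h2 : ‖1 - r‖ * ‖1 + r‖ ≤ δ := by
    rw [← norm_mul, h1]
    exact hw
  have h3 : 1 ≤ ‖1 + r‖ := by
    have h4 : (1 + r).re ≤ ‖1 + r‖ := Complex.re_le_norm _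
    rw [Complex.add_re, Complex.one_re] at h4
    linarith
  have h5 : ‖1 - r‖ ≤ δ := by
    have := mul_le_mul_of_nonneg_left h3 (norm_nonneg (1 - r))
    linarith
  have h6 : 2 - ‖1 - r‖ ≤ ‖1 + r‖ := by
    have h7 : (2 : ℂ) = (1 + r) + (1 - r) := by ring
    have h8 : ‖(2 : ℂ)‖ ≤ ‖1 + r‖ + ‖1 - r‖ := by
      rw [h7]
      exact norm_add_le _ _
    rw [Complex.norm_two] at h8
    linarith
  calc ‖1 - r‖ * (2 - δ) ≤ ‖1 - r‖ * ‖1 + r‖ :=
        mul_le_mul_of_nonneg_left (by linarith) (norm_nonneg _)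
    _ ≤ δ := h2

theorem norm_ge_of_sub {r : ℂ} {ε : ℝ} (h : ‖1 - r‖ ≤ ε) : 1 - ε ≤ ‖r‖ := by
  have h1 : ‖(1 : ℂ)‖ ≤ ‖1 - r‖ + ‖r‖ := by
    calc ‖(1 : ℂ)‖ = ‖(1 - r) + r‖ := by rw [sub_add_cancel]
      _ ≤ _ := norm_add_le _ _
  rw [norm_one] at h1
  linarith

/-- the bound of the quotient -/
theorem quot_bd {C C' r : ℂ} {c D ε : ℝ} (hc : 0 < c) (hC : c ≤ ‖C‖) (hD : ‖C' - C‖ ≤ D)
    (hε1 : ε < 1) (hr : ‖1 - r‖ ≤ ε) :
    ‖C' / (C * r) - 1‖ ≤ D / (c * (1 - ε)) + ε / (1 - ε) := by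
  have hr1 := norm_ge_of_sub hr
  have hr0 : 0 < ‖r‖ := by linarith
  have hC0 : 0 < ‖C‖ := by linarith
  have hCn : C ≠ 0 := norm_pos_iff.1 hC0
  have hrn : r ≠ 0 := norm_pos_iff.1 hr0
  have e : C' / (C * r) - 1 = (C' - C) / (C * r) + (1 - r) / r := by
    field_simp
    ring
  rw [e]
  refine (norm_add_le _ _).trans (add_le_add ?_ ?_)
  · rw [norm_div, norm_mul]
    apply div_le_div₀ ((norm_nonneg _).trans hD) hD (by
      have : 0 < 1 - ε := by linarith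
      positivity)
    exact mul_le_mul hC hr1 (by linarith) hC0.le
  · rw [norm_div]
    exact div_le_div₀ ((norm_nonneg _).trans hr) hr (by linarith) hr1

/-- the quadratic form -/
theorem quad_form {a b p q μ : ℝ} (ha : 0 ≤ a) (hn0 : 0 < a ^ 2 + b ^ 2)
    (h1 : (a ^ 2 + b ^ 2 + 1) ^ 2 ≤ 41 / 10 * (a ^ 2 + b ^ 2))
    (h2 : b ^ 2 ≤ 221 / 10000 * (a ^ 2 + b ^ 2)) (h3 : (p - 1) ^ 2 + q ^ 2 ≤ (403 / 10000) ^ 2)
    (h4 : μ ^ 2 ≤ 744 / 10000 * (p ^ 2 + q ^ 2)) (u v : ℝ) :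
    3 / 5 * (u ^ 2 + v ^ 2) ≤
      (a * p - b * q) * u ^ 2 - 2 * μ * u * v + (a * p + b * q) / (a ^ 2 + b ^ 2) * v ^ 2 := by
  obtain ⟨n, hn⟩ : ∃ n : ℝ, n = a ^ 2 + b ^ 2 := ⟨_, rfl⟩
  rw [← hn] at hn0 h1 h2 ⊢
  have hp1 : 9597 / 10000 ≤ p := by
    have : |p - 1| ≤ 403 / 10000 := abs_le_of_sq_le_sq (by nlinarith [sq_nonneg q]) (by norm_num)
    linarith [(abs_le.1 this).1]
  have hp2 : p ≤ 10403 / 10000 := by
    have : |p - 1| ≤ 403 / 10000 := abs_le_of_sq_le_sq (by nlinarith [sq_nonneg q]) (by norm_num)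
    linarith [(abs_le.1 this).2]
  have hq : |q| ≤ 403 / 10000 := abs_le_of_sq_le_sq (by nlinarith [sq_nonneg (p - 1)]) (by norm_num)
  have hn1 : 72 / 100 ≤ n := by nlinarith
  have hn2 : n ≤ 138 / 100 := by nlinarith
  have hb : |b| ≤ 175 / 1000 := abs_le_of_sq_le_sq (by nlinarith) (by norm_num)
  have ha1 : 83 / 100 ≤ a := by
    have h5 : (83 / 100 : ℝ) ^ 2 ≤ a ^ 2 := by nlinarith
    exact le_of_sq_le_sq h5 ha
  have hbq : |b * q| ≤ 175 / 1000 * (403 / 10000) := by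
    rw [abs_mul]
    exact mul_le_mul hb hq (abs_nonneg _) (by norm_num)
  have hA : 3 / 5 < a * p - b * q := by
    have h5 : 83 / 100 * (9597 / 10000) ≤ a * p := mul_le_mul ha1 hp1 (by norm_num) ha
    have h6 := (abs_le.1 hbq).2
    nlinarith
  -- the determinant
  have k1 : a * (n + 1) ≤ 2025 / 1000 * n := by
    apply le_of_sq_le_sq _ (by positivity)
    have h5 : (a * (n + 1)) ^ 2 ≤ n * (41 / 10 * n) := by
      rw [mul_pow]
      apply mul_le_mul _ h1 (sq_nonneg _) hn0.le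
      rw [hn]
      nlinarith [sq_nonneg b]
    nlinarith [sq_nonneg n]
  have k2 : |b * (n - 1)| ≤ 471 / 10000 * n := by
    apply abs_le_of_sq_le_sq _ (by positivity)
    have h5 : (b * (n - 1)) ^ 2 ≤ (221 / 10000 * n) * (1 / 10 * n) := by
      rw [mul_pow]
      apply mul_le_mul h2 _ (sq_nonneg _) (by positivity)
      nlinarith
    nlinarith [sq_nonneg n]
  have k3 : |b * (n - 1) * q| ≤ 471 / 10000 * n * (403 / 10000) := by
    rw [abs_mul]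
    exact mul_le_mul k2 hq (abs_nonneg _) (by positivity)
  have hp0 : 0 ≤ p := by linarith
  have k4 : a * (n + 1) * p ≤ 2025 / 1000 * n * p := mul_le_mul_of_nonneg_right k1 hp0
  have k5 : b ^ 2 * (p ^ 2 + q ^ 2) ≤ 221 / 10000 * n * (p ^ 2 + q ^ 2) :=
    mul_le_mul_of_nonneg_right h2 (by positivity)
  have k6 : n * μ ^ 2 ≤ n * (744 / 10000 * (p ^ 2 + q ^ 2)) := mul_le_mul_of_nonneg_left h4 hn0.le
  have k7 : 0 ≤ p ^ 2 - (221 / 10000 + 744 / 10000) * (p ^ 2 + q ^ 2) - 3 / 5 * (2025 / 1000) * p -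
      3 / 5 * (471 / 10000 * (403 / 10000)) + 9 / 25 := by
    nlinarith [sq_nonneg (p - 1)]
  have k8 : 0 ≤ n * (p ^ 2 - (221 / 10000 + 744 / 10000) * (p ^ 2 + q ^ 2) -
      3 / 5 * (2025 / 1000) * p - 3 / 5 * (471 / 10000 * (403 / 10000)) + 9 / 25) :=
    mul_nonneg hn0.le k7
  have k9 : n * μ ^ 2 ≤ (a * p - b * q - 3 / 5) * (a * p + b * q - 3 / 5 * n) := by
    have e1 : (a * p - b * q - 3 / 5) * (a * p + b * q - 3 / 5 * n) =
        n * p ^ 2 - b ^ 2 * (p ^ 2 + q ^ 2) - 3 / 5 * (a * (n + 1) * p) +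
          3 / 5 * (b * (n - 1) * q) + 9 / 25 * n := by
      rw [hn]
      ring
    rw [e1]
    have h6 := (abs_le.1 k3).1
    nlinarith
  have k10 : μ ^ 2 ≤ (a * p - b * q - 3 / 5) * ((a * p + b * q) / n - 3 / 5) := by
    have e2 : (a * p - b * q - 3 / 5) * ((a * p + b * q) / n - 3 / 5) =
        ((a * p - b * q - 3 / 5) * (a * p + b * q - 3 / 5 * n)) / n := by
      field_simp
    rw [e2, le_div_iff₀ hn0]
    linarith
  obtain ⟨A, hAd⟩ : ∃ A : ℝ, A = a * p - b * q - 3 / 5 := ⟨_, rfl⟩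
  obtain ⟨B, hBd⟩ : ∃ B : ℝ, B = (a * p + b * q) / n - 3 / 5 := ⟨_, rfl⟩
  rw [← hAd, ← hBd] at k10
  have hA0 : 0 < A := by rw [hAd]; linarith
  have e3 : (a * p - b * q) * u ^ 2 - 2 * μ * u * v + (a * p + b * q) / n * v ^ 2 -
      3 / 5 * (u ^ 2 + v ^ 2) = A * u ^ 2 - 2 * μ * u * v + B * v ^ 2 := by
    rw [hAd, hBd]
    ring
  have k11 : 0 ≤ A * (A * u ^ 2 - 2 * μ * u * v + B * v ^ 2) := by
    have e4 : A * (A * u ^ 2 - 2 * μ * u * v + B * v ^ 2) =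
        (A * u - μ * v) ^ 2 + (A * B - μ ^ 2) * v ^ 2 := by ring
    rw [e4]
    have := mul_nonneg (sub_nonneg.2 k10) (sq_nonneg v)
    nlinarith [sq_nonneg (A * u - μ * v)]
  have k12 : 0 ≤ A * u ^ 2 - 2 * μ * u * v + B * v ^ 2 := by
    by_contra hcon
    rw [not_le] at hcon
    have := mul_neg_of_pos_of_neg hA0 hcon
    linarith
  linarith

end Pool.Agent.N999.EK
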